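import Pool.Agent.K6.H31.WI.Core

/-! Polynomial approximation of `1/exp Q_n` and bounds for `P_n f - 1`. -/

set_option autoImplicit false

open Complex Metric Set Filter Topology

namespace Pool.Agent.K6.H31.WI

theorem exp_approx (S ε : ℝ) (hε : 0 < ε) :
    ∃ M : ℕ, ∀ w : ℂ, ‖w‖ ≤ S → ‖Complex.exp w - ∑ i ∈ Finset.range M, w ^ i / (i.factorial : ℂ)‖ ≤ ε := by
  have h1 : TendstoUniformlyOn (fun (N : ℕ) (w : ℂ) => ∑ i ∈ Finset.range N, w ^ i / (i.factorial : ℂ))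
      (fun w : ℂ => ∑' i : ℕ, w ^ i / (i.factorial : ℂ)) atTop {w : ℂ | ‖w‖ ≤ S} := by
    refine tendstoUniformlyOn_tsum_nat (u := fun i : ℕ => |S| ^ i / (i.factorial : ℝ))
      (Real.summable_pow_div_factorial |S|) ?_
    intro n w hw
    rw [norm_div, norm_pow]
    have h2 : ‖((n.factorial : ℂ))‖ = (n.factorial : ℝ) := by simp
    rw [h2]
    have h3 : ‖w‖ ≤ |S| := (show ‖w‖ ≤ S from hw).trans (le_abs_self S)
    gcongr
  rw [Metric.tendstoUniformlyOn_iff] at h1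
  obtain ⟨M, hM⟩ := (h1 ε hε).exists
  refine ⟨M, fun w hw => ?_⟩
  have h2 := hM w hw
  have h3 : ∑' i : ℕ, w ^ i / (i.factorial : ℂ) = Complex.exp w := by
    rw [Complex.exp_eq_exp_ℂ, NormedSpace.exp_eq_tsum_div]
  rw [h3, dist_eq_norm] at h2
  exact h2.le

/-- A polynomial close to `exp (-Q_n)` on the closed unit disc. -/
theorem exists_poly (n : ℕ) : ∃ P : Polynomial ℂ, ∀ z : ℂ, ‖z‖ ≤ 1 →
    ‖P.eval z - Complex.exp (-((stg n).Q.eval z))‖ ≤ (1 / 2) ^ n * Real.exp (-((stg n).T + 1)) := by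
  obtain ⟨M, hM⟩ := exp_approx (stg n).S ((1 / 2) ^ n * Real.exp (-((stg n).T + 1))) (by positivity)
  refine ⟨∑ i ∈ Finset.range M, Polynomial.C (1 / (i.factorial : ℂ)) * (-(stg n).Q) ^ i,
    fun z hz => ?_⟩
  have h1 := hM (-((stg n).Q.eval z)) (by rw [norm_neg]; exact (inv n).bd z hz)
  rw [norm_sub_rev] at h1
  refine le_trans (le_of_eq ?_) h1
  congr 2
  rw [Polynomial.eval_finsetSum]
  refine Finset.sum_congr rfl fun i _ => ?_
  rw [Polynomial.eval_mul, Polynomial.eval_C, Polynomial.eval_pow, Polynomial.eval_neg]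
  ring

/-- The approximating polynomials. -/
noncomputable def Pn (n : ℕ) : Polynomial ℂ := (exists_poly n).choose

theorem Pn_spec (n : ℕ) : ∀ z : ℂ, ‖z‖ ≤ 1 →
    ‖(Pn n).eval z - Complex.exp (-((stg n).Q.eval z))‖ ≤ (1 / 2) ^ n * Real.exp (-((stg n).T + 1)) :=
  (exists_poly n).choose_spec

theorem exp_sub_one_le {w : ℂ} (hw : ‖w‖ ≤ 1) : ‖Complex.exp w - 1‖ ≤ 2 * ‖w‖ :=
  Complex.norm_exp_sub_one_le hw

/-- Bound on the inner circles. -/
theorem inner_bound {m n : ℕ} (hmn : m ≤ n) {z : ℂ} (hz : ‖z‖ ≤ (stg m).r) :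
    ‖(Pn n).eval z * f z - 1‖ ≤ 3 * (1 / 2) ^ n := by
  have hz1 : ‖z‖ ≤ 1 := hz.trans (r_lt_one m).le
  have hzn : ‖z‖ ≤ (stg n).r := hz.trans (r_strictMono.monotone hmn)
  have h1 := Pn_spec n z hz1
  have h2 := f_le hzn
  have h3 := L_close (le_refl n) hzn
  have h4 : ((1 : ℝ) / 2) ^ n ≤ 1 := pow_le_one₀ (by norm_num) (by norm_num)
  have h5 : (Pn n).eval z * f z - 1 = ((Pn n).eval z - Complex.exp (-((stg n).Q.eval z))) * f z +
      (Complex.exp (L z - (stg n).Q.eval z) - 1) := by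
    have : Complex.exp (L z - (stg n).Q.eval z) = Complex.exp (-((stg n).Q.eval z)) * f z := by
      unfold f
      rw [← Complex.exp_add]
      congr 1
      ring
    rw [this]
    ring
  rw [h5]
  refine (norm_add_le _ _).trans ?_
  rw [norm_mul]
  have h6 : ‖(Pn n).eval z - Complex.exp (-((stg n).Q.eval z))‖ * ‖f z‖ ≤ (1 / 2) ^ n := by
    calc ‖(Pn n).eval z - Complex.exp (-((stg n).Q.eval z))‖ * ‖f z‖ ≤
        ((1 / 2) ^ n * Real.exp (-((stg n).T + 1))) * Real.exp ((stg n).T + 1) := by gcongr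
      _ = (1 / 2) ^ n := by
        rw [mul_assoc, ← Real.exp_add]
        simp
  have h7 := exp_sub_one_le (h3.trans h4)
  linarith

/-- Bound on the outer circles. -/
theorem outer_bound {m n : ℕ} (hmn : n ≤ m) {z : ℂ} (hz : ‖z‖ ≤ (stg m).r) :
    ‖(Pn n).eval z * f z - 1‖ ≤ 3 * Real.exp ((stg m).T + 1 + (stg n).S) := by
  have hz1 : ‖z‖ ≤ 1 := hz.trans (r_lt_one m).le
  have h1 := Pn_spec n z hz1
  have h2 := f_le hz
  have h4 : ((1 : ℝ) / 2) ^ n ≤ 1 := pow_le_one₀ (by norm_num) (by norm_num)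
  have hT0 := (inv n).T0
  have hTm := (inv m).T0
  have hS0 := (inv n).S0
  have h5 : ((1 : ℝ) / 2) ^ n * Real.exp (-((stg n).T + 1)) ≤ 1 := by
    have : Real.exp (-((stg n).T + 1)) ≤ 1 := Real.exp_le_one_iff.2 (by linarith)
    calc ((1 : ℝ) / 2) ^ n * Real.exp (-((stg n).T + 1)) ≤ 1 * 1 := by gcongr
      _ = 1 := one_mul 1
  have h6 : ‖Complex.exp (-((stg n).Q.eval z))‖ ≤ Real.exp (stg n).S := by
    rw [Complex.norm_exp]
    apply Real.exp_le_exp.2
    refine (Complex.re_le_norm _).trans ?_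
    rw [norm_neg]
    exact (inv n).bd z hz1
  have h7 : ‖(Pn n).eval z‖ ≤ 1 + Real.exp (stg n).S := by
    calc ‖(Pn n).eval z‖ = ‖((Pn n).eval z - Complex.exp (-((stg n).Q.eval z))) +
          Complex.exp (-((stg n).Q.eval z))‖ := by rw [sub_add_cancel]
      _ ≤ _ := (norm_add_le _ _).trans (add_le_add (h1.trans h5) h6)
  have h8 : 1 ≤ Real.exp (stg n).S := Real.one_le_exp hS0
  have h9 : 1 ≤ Real.exp ((stg m).T + 1) := Real.one_le_exp (by linarith)
  have h10 : Real.exp ((stg m).T + 1 + (stg n).S) = Real.exp ((stg m).T + 1) * Real.exp (stg n).S :=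
    Real.exp_add _ _
  rw [h10]
  calc ‖(Pn n).eval z * f z - 1‖ ≤ ‖(Pn n).eval z‖ * ‖f z‖ + 1 := by
        refine (norm_sub_le _ _).trans ?_
        rw [norm_mul, norm_one]
    _ ≤ (1 + Real.exp (stg n).S) * Real.exp ((stg m).T + 1) + 1 := by gcongr
    _ ≤ 3 * (Real.exp ((stg m).T + 1) * Real.exp (stg n).S) := by nlinarith

/-- The weighted bounds for `P_n f - 1` are summable and tend to `0`, for `q < 2`. -/
noncomputable def bnd (q : ℝ) (n m : ℕ) : ℝ :=
  if m + 1 ≤ n then (9 / 10) ^ (m + 1) * (3 * (1 / 2) ^ n) ^ q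
  else cc (m + 1) * (3 * Real.exp ((stg (m + 1)).T + 1 + (stg n).S)) ^ q

theorem bnd_nonneg (q : ℝ) (n m : ℕ) : 0 ≤ bnd q n m := by
  unfold bnd
  split_ifs
  · positivity
  · have := cc_pos (m + 1)
    positivity

theorem cc_le (m : ℕ) : cc (m + 1) ≤ (9 / 10) ^ (m + 1) := by
  unfold cc
  have h1 : Real.exp (-(2 * (stg (m + 1)).T)) ≤ 1 :=
    Real.exp_le_one_iff.2 (by have := (inv (m + 1)).T0; linarith)
  calc ((9 : ℝ) / 10) ^ (m + 1) * Real.exp (-(2 * (stg (m + 1)).T)) ≤ (9 / 10) ^ (m + 1) * 1 := by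
        gcongr
    _ = _ := mul_one _

theorem bnd_le {q : ℝ} (hq : 0 < q) (hq2 : q < 2) {n : ℕ} (hn : q ≤ (2 - q) * (n + 1)) (m : ℕ) :
    bnd q n m ≤ 3 ^ q * (9 / 10) ^ (m + 1) := by
  unfold bnd
  split_ifs with h
  · have h1 : (3 * ((1 : ℝ) / 2) ^ n) ^ q ≤ 3 ^ q := by
      apply Real.rpow_le_rpow (by positivity) _ hq.le
      have : ((1 : ℝ) / 2) ^ n ≤ 1 := pow_le_one₀ (by norm_num) (by norm_num)
      linarith
    rw [mul_comm]
    gcongr
  · push Not at h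
    have hnm : n ≤ m := by omega
    have h1 : (n + 1) * ((stg n).S + 1) ≤ (stg (m + 1)).T :=
      (T_growth n).trans (T_mono (by omega : n + 1 ≤ m + 1))
    have hS0 := (inv n).S0
    have h2 : q * (1 + (stg n).S) ≤ (2 - q) * (stg (m + 1)).T := by
      calc q * (1 + (stg n).S) ≤ ((2 - q) * (n + 1)) * (1 + (stg n).S) := by gcongr
        _ = (2 - q) * ((n + 1) * ((stg n).S + 1)) := by ring
        _ ≤ (2 - q) * (stg (m + 1)).T := by
          apply mul_le_mul_of_nonneg_left h1 (by linarith)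
    unfold cc
    rw [Real.mul_rpow (by norm_num) (Real.exp_pos _).le, ← Real.exp_mul]
    have h3 : Real.exp (-(2 * (stg (m + 1)).T)) * Real.exp (((stg (m + 1)).T + 1 + (stg n).S) * q) ≤ 1 := by
      rw [← Real.exp_add]
      apply Real.exp_le_one_iff.2
      nlinarith
    calc (9 / 10) ^ (m + 1) * Real.exp (-(2 * (stg (m + 1)).T)) *
          (3 ^ q * Real.exp (((stg (m + 1)).T + 1 + (stg n).S) * q)) =
          (3 ^ q * (9 / 10) ^ (m + 1)) * (Real.exp (-(2 * (stg (m + 1)).T)) *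
            Real.exp (((stg (m + 1)).T + 1 + (stg n).S) * q)) := by ring
      _ ≤ (3 ^ q * (9 / 10) ^ (m + 1)) * 1 := by gcongr
      _ = _ := mul_one _

theorem bnd_tendsto {q : ℝ} (hq : 0 < q) (hq2 : q < 2) :
    Tendsto (fun n => ∑' m, bnd q n m) atTop (𝓝 0) := by
  have h0 : (∑' _ : ℕ, (0 : ℝ)) = 0 := tsum_zero
  rw [← h0]
  refine tendsto_tsum_of_dominated_convergence (bound := fun m => 3 ^ q * (9 / 10) ^ (m + 1)) ?_ ?_ ?_
  · apply Summable.mul_left
    exact (summable_nat_add_iff 1).2 (summable_geometric_of_lt_one (by norm_num) (by norm_num))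
  · intro m
    have h1 : Tendsto (fun n : ℕ => (9 / 10) ^ (m + 1) * (3 * ((1 : ℝ) / 2) ^ n) ^ q) atTop
        (𝓝 ((9 / 10) ^ (m + 1) * (3 * 0) ^ q)) := by
      apply Tendsto.const_mul
      apply Tendsto.rpow_const
      · apply Tendsto.const_mul
        exact tendsto_pow_atTop_nhds_zero_of_lt_one (by norm_num) (by norm_num)
      · right
        exact hq.le
    rw [mul_zero, Real.zero_rpow hq.ne', mul_zero] at h1
    refine h1.congr' ?_
    filter_upwards [eventually_ge_atTop (m + 1)] with n hn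
    unfold bnd
    rw [if_pos hn]
  · have h1 : Tendsto (fun n : ℕ => (2 - q) * ((n : ℝ) + 1)) atTop atTop := by
      apply Tendsto.const_mul_atTop (by linarith)
      exact tendsto_atTop_add_const_right _ _ tendsto_natCast_atTop_atTop
    filter_upwards [h1.eventually_ge_atTop q] with n hn m
    rw [Real.norm_of_nonneg (bnd_nonneg q n m)]
    exact bnd_le hq hq2 hn m

theorem bnd_summable {q : ℝ} (hq : 0 < q) (hq2 : q < 2) {n : ℕ} (hn : q ≤ (2 - q) * (n + 1)) :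
    Summable (bnd q n) := by
  refine Summable.of_nonneg_of_le (bnd_nonneg q n) (bnd_le hq hq2 hn) ?_
  apply Summable.mul_left
  exact (summable_nat_add_iff 1).2 (summable_geometric_of_lt_one (by norm_num) (by norm_num))

theorem le_bnd {q : ℝ} (hq : 0 < q) (n m : ℕ) {z : ℂ} (hz : ‖z‖ ≤ (stg (m + 1)).r) :
    cc (m + 1) * ‖(Pn n).eval z * f z - 1‖ ^ q ≤ bnd q n m := by
  unfold bnd
  have h0 := cc_pos (m + 1)
  split_ifs with h
  · have h1 := inner_bound h hz
    have h2 := cc_le m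
    have h3 : ‖(Pn n).eval z * f z - 1‖ ^ q ≤ (3 * (1 / 2) ^ n) ^ q :=
      Real.rpow_le_rpow (norm_nonneg _) h1 hq.le
    gcongr
  · have h1 := outer_bound (by omega : n ≤ m + 1) hz
    have h3 : ‖(Pn n).eval z * f z - 1‖ ^ q ≤
        (3 * Real.exp ((stg (m + 1)).T + 1 + (stg n).S)) ^ q :=
      Real.rpow_le_rpow (norm_nonneg _) h1 hq.le
    gcongr

end Pool.Agent.K6.H31.WI
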