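import Mathlib

/-! Poisson kernel estimates on circles. -/

set_option autoImplicit false

open Real Complex Metric Set

namespace Pool.Agent.K6.H31.WI

/-- Linearity of circle averages. -/
theorem avg_lin {R : ℝ} {g₁ g₂ : ℂ → ℝ} (a b : ℝ) (h₁ : CircleIntegrable g₁ 0 R)
    (h₂ : CircleIntegrable g₂ 0 R) :
    circleAverage (fun z => a * g₁ z + b * g₂ z) 0 R =
      a * circleAverage g₁ 0 R + b * circleAverage g₂ 0 R := by
  have h3 : CircleIntegrable (fun z => a • g₁ z) 0 R := h₁.const_smul
  have h4 : CircleIntegrable (fun z => b • g₂ z) 0 R := h₂.const_smul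
  have h5 := circleAverage_fun_add h3 h4
  rw [circleAverage_fun_smul, circleAverage_fun_smul] at h5
  simpa only [smul_eq_mul] using h5

/-- Cauchy-Schwarz for circle averages with a weight. -/
theorem cs_circleAverage {R : ℝ} {w h : ℂ → ℝ}
    (hw : ContinuousOn w (sphere 0 |R|)) (hh : ContinuousOn h (sphere 0 |R|))
    (hpos : ∀ z ∈ sphere (0 : ℂ) |R|, 0 ≤ w z) :
    (circleAverage (fun z => w z * h z) 0 R) ^ 2 ≤
      circleAverage w 0 R * circleAverage (fun z => w z * h z ^ 2) 0 R := by
  have hI1 : CircleIntegrable (fun z => w z * h z) 0 R := (hw.mul hh).circleIntegrable'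
  have hI2 : CircleIntegrable (fun z => w z * h z ^ 2) 0 R := (hw.mul (hh.pow 2)).circleIntegrable'
  have hI0 : CircleIntegrable w 0 R := hw.circleIntegrable'
  have key : ∀ t : ℝ, 0 ≤ circleAverage w 0 R * (t * t) +
      (-2 * circleAverage (fun z => w z * h z) 0 R) * t +
      circleAverage (fun z => w z * h z ^ 2) 0 R := by
    intro t
    have h1 : 0 ≤ circleAverage (fun z => w z * (h z - t) ^ 2) 0 R := by
      apply circleAverage_nonneg_of_nonneg
      intro z hz
      exact mul_nonneg (hpos z hz) (sq_nonneg _)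
    have h2 : circleAverage (fun z => w z * (h z - t) ^ 2) 0 R =
        circleAverage (fun z => (w z * h z ^ 2 + (-2 * t) • (w z * h z)) + (t * t) • w z) 0 R := by
      congr 1
      funext z
      simp only [smul_eq_mul]
      ring
    rw [h2, circleAverage_fun_add, circleAverage_fun_add, circleAverage_fun_smul,
      circleAverage_fun_smul] at h1
    · simp only [smul_eq_mul] at h1
      linarith
    · exact hI2
    · exact hI1.const_smul
    · exact hI2.add hI1.const_smul
    · exact hI0.const_smul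
  have hd := discrim_le_zero key
  unfold discrim at hd
  nlinarith

/-- The Poisson kernel is continuous on the circle. -/
theorem continuousOn_pk {R : ℝ} {z : ℂ} (hz : z ∈ ball (0 : ℂ) R) :
    ContinuousOn (poissonKernel 0 z) (sphere 0 |R|) := by
  have h1 := continuousOn_herglotzRieszKernel_sphere hz
  rw [poissonKernel_eq_re_herglotzRieszKernel]
  exact Complex.continuous_re.comp_continuousOn h1

theorem pk_nonneg {R : ℝ} {z ζ : ℂ} (hz : z ∈ ball (0 : ℂ) R) (hζ : ζ ∈ sphere (0 : ℂ) |R|) :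
    0 ≤ poissonKernel 0 z ζ := by
  rw [poissonKernel_def]
  have h1 : ‖z‖ < R := by simpa using hz
  have h2 : ‖ζ‖ = |R| := by simpa using hζ
  have hR : 0 < R := (norm_nonneg z).trans_lt h1
  rw [abs_of_pos hR] at h2
  apply div_nonneg _ (sq_nonneg _)
  simp only [sub_zero, h2]
  nlinarith [norm_nonneg z]

theorem pk_avg {R : ℝ} {z : ℂ} (hz : z ∈ ball (0 : ℂ) R) :
    circleAverage (poissonKernel 0 z) 0 R = 1 := by
  have h := DiffContOnCl.circleAverage_poissonKernel_smul (E := ℂ) (f := fun _ => (1 : ℂ))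
    (c := 0) (R := R) (w := z) diffContOnCl_const hz
  have h2 : (poissonKernel 0 z • fun _ : ℂ => (1 : ℂ)) = fun ζ => ((poissonKernel 0 z ζ : ℝ) : ℂ) := by
    funext ζ
    simp
  rw [h2] at h
  have h3 : circleAverage (fun ζ => ((poissonKernel 0 z ζ : ℝ) : ℂ)) 0 R =
      ((circleAverage (poissonKernel 0 z) 0 R : ℝ) : ℂ) := by
    have := Complex.ofRealCLM.circleAverage_comp_comm (f := poissonKernel 0 z) (c := 0) (R := R)
      (continuousOn_pk hz).circleIntegrable'
    simpa [Function.comp_def] using this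
  rw [h3] at h
  exact_mod_cast h

/-- The average over a smaller circle of the Poisson integral of `g`. -/
theorem avg_poisson {r R : ℝ} (hr : 0 ≤ r) (hrR : r < R) {g : ℂ → ℝ}
    (hg : ContinuousOn g (sphere 0 |R|)) :
    circleAverage (fun z => circleAverage (fun ζ => poissonKernel 0 z ζ * g ζ) 0 R) 0 r =
      circleAverage g 0 R := by
  have hR : 0 < R := hr.trans_lt hrR
  have hgI : CircleIntegrable g 0 R := hg.circleIntegrable'
  have hgC : ContinuousOn (fun ζ => (g ζ : ℂ)) (sphere 0 |R|) :=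
    Complex.continuous_ofReal.comp_continuousOn hg
  set H : ℂ → ℂ := fun w => circleAverage (fun ζ ↦ herglotzRieszKernel 0 w ζ • (g ζ : ℂ)) 0 R
    with hH
  have hHa : AnalyticOnNhd ℂ H (ball 0 R) :=
    analyticOnNhd_circleAverage_herglotzRieszKernel_smul hgC.circleIntegrable'
  have hsub : closedBall (0 : ℂ) |r| ⊆ ball 0 R := by
    rw [abs_of_nonneg hr]
    exact closedBall_subset_ball hrR
  have hHd : DiffContOnCl ℂ H (ball 0 |r|) := by
    rcases hr.eq_or_lt with h0 | h0
    · rw [← h0, abs_zero, ball_zero]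
      exact ⟨differentiableOn_empty, by simp⟩
    · apply DifferentiableOn.diffContOnCl
      have : closure (ball (0 : ℂ) |r|) ⊆ ball 0 R := closure_ball_subset_closedBall.trans hsub
      exact hHa.differentiableOn.mono this
  have hmv : circleAverage H 0 r = H 0 := hHd.circleAverage
  have hH0 : H 0 = ((circleAverage g 0 R : ℝ) : ℂ) := by
    have h1 : H 0 = circleAverage (fun ζ => (g ζ : ℂ)) 0 R := by
      rw [hH]
      apply circleAverage_congr_sphere
      intro ζ hζ
      have hζ0 : ζ ≠ 0 := by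
        intro h
        rw [h] at hζ
        simp only [mem_sphere_iff_norm, sub_zero, norm_zero] at hζ
        have := abs_pos.2 hR.ne'
        linarith
      simp [herglotzRieszKernel_def, div_self hζ0]
    rw [h1]
    have := Complex.ofRealCLM.circleAverage_comp_comm (f := g) (c := 0) (R := R) hgI
    simpa [Function.comp_def] using this
  have hHc : ContinuousOn H (sphere 0 |r|) :=
    hHa.continuousOn.mono (sphere_subset_closedBall.trans hsub)
  have h3 : circleAverage (fun z => (H z).re) 0 r = (circleAverage H 0 r).re := by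
    have := Complex.reCLM.circleAverage_comp_comm (f := H) (c := 0) (R := r) hHc.circleIntegrable'
    simpa [Function.comp_def] using this
  have h4 : circleAverage (fun z => circleAverage (fun ζ => poissonKernel 0 z ζ * g ζ) 0 R) 0 r =
      circleAverage (fun z => (H z).re) 0 r := by
    apply circleAverage_congr_sphere
    intro z hz
    have hz' : z ∈ ball (0 : ℂ) R := hsub (sphere_subset_closedBall hz)
    simp only [hH]
    rw [re_circleAverage_herglotzRieszKernel_smul hgI hz', ← poissonKernel_eq_re_herglotzRieszKernel]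
    rfl
  rw [h4, h3, hmv, hH0, ofReal_re]

/-- The contraction step. -/
theorem key_step {r R : ℝ} (hr : 0 ≤ r) (hrR : r < R) {P : ℂ → ℂ} (hP : Differentiable ℂ P)
    {κ : ℂ → ℝ} (hκ : ContinuousOn κ (sphere 0 |R|))
    (hκ0 : ∀ z ∈ sphere (0 : ℂ) |R|, 0 ≤ κ z) (hκ1 : ∀ z ∈ sphere (0 : ℂ) |R|, κ z ≤ 1)
    (hκr : ∀ z ∈ sphere (0 : ℂ) |r|, circleAverage (fun ζ => poissonKernel 0 z ζ * κ ζ) 0 R ≤ 4 / 5) :
    circleAverage (fun z => ‖P z‖ ^ 2) 0 r ≤
      25 * circleAverage (fun z => (1 - κ z) ^ 2 * ‖P z‖ ^ 2) 0 R +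
      5 / 6 * circleAverage (fun z => ‖P z‖ ^ 2) 0 R := by
  have hR : 0 < R := hr.trans_lt hrR
  have hPc : ContinuousOn (fun z => ‖P z‖) (sphere 0 |R|) := hP.continuous.norm.continuousOn
  set g : ℂ → ℝ := fun ζ => 25 * ((1 - κ ζ) ^ 2 * ‖P ζ‖ ^ 2) + 5 / 6 * ‖P ζ‖ ^ 2 with hg
  have hc1 : ContinuousOn (fun z => (1 - κ z) ^ 2 * ‖P z‖ ^ 2) (sphere 0 |R|) :=
    ((continuousOn_const.sub hκ).pow 2).mul (hPc.pow 2)
  have hc2 : ContinuousOn (fun z => ‖P z‖ ^ 2) (sphere 0 |R|) := hPc.pow 2
  have hgc : ContinuousOn g (sphere 0 |R|) :=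
    (continuousOn_const.mul hc1).add (continuousOn_const.mul hc2)
  have hpt : ∀ z ∈ sphere (0 : ℂ) |r|, ‖P z‖ ^ 2 ≤
      circleAverage (fun ζ => poissonKernel 0 z ζ * g ζ) 0 R := by
    intro z hz
    have hzr : ‖z‖ = r := by simpa [abs_of_nonneg hr] using hz
    have hzR : z ∈ ball (0 : ℂ) R := by simpa [hzr] using hrR
    have hpk := continuousOn_pk hzR
    set X : ℝ := circleAverage (fun ζ => poissonKernel 0 z ζ * ((1 - κ ζ) * ‖P ζ‖)) 0 R with hX
    set Y : ℝ := circleAverage (fun ζ => (poissonKernel 0 z ζ * κ ζ) * ‖P ζ‖) 0 R with hY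
    set A : ℝ := circleAverage (fun ζ => poissonKernel 0 z ζ * ((1 - κ ζ) * ‖P ζ‖) ^ 2) 0 R with hA
    set B : ℝ := circleAverage (fun ζ => poissonKernel 0 z ζ * ‖P ζ‖ ^ 2) 0 R with hB
    have cX : ContinuousOn (fun ζ => poissonKernel 0 z ζ * ((1 - κ ζ) * ‖P ζ‖)) (sphere 0 |R|) :=
      hpk.mul ((continuousOn_const.sub hκ).mul hPc)
    have cY : ContinuousOn (fun ζ => (poissonKernel 0 z ζ * κ ζ) * ‖P ζ‖) (sphere 0 |R|) :=
      (hpk.mul hκ).mul hPc
    have cA : ContinuousOn (fun ζ => poissonKernel 0 z ζ * ((1 - κ ζ) * ‖P ζ‖) ^ 2) (sphere 0 |R|) :=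
      hpk.mul (((continuousOn_const.sub hκ).mul hPc).pow 2)
    have cB : ContinuousOn (fun ζ => poissonKernel 0 z ζ * ‖P ζ‖ ^ 2) (sphere 0 |R|) :=
      hpk.mul hc2
    have cB' : ContinuousOn (fun ζ => (poissonKernel 0 z ζ * κ ζ) * ‖P ζ‖ ^ 2) (sphere 0 |R|) :=
      (hpk.mul hκ).mul hc2
    have hX2 : X ^ 2 ≤ A := by
      have h := cs_circleAverage (R := R) (w := poissonKernel 0 z)
        (h := fun ζ => (1 - κ ζ) * ‖P ζ‖) hpk ((continuousOn_const.sub hκ).mul hPc)
        (fun ζ hζ => pk_nonneg hzR hζ)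
      rw [pk_avg hzR, one_mul] at h
      exact h
    have hY2 : Y ^ 2 ≤ 4 / 5 * B := by
      have h := cs_circleAverage (R := R) (hpk.mul hκ) hPc
        (fun ζ hζ => mul_nonneg (pk_nonneg hzR hζ) (hκ0 ζ hζ))
      have h1 : circleAverage (fun ζ => (poissonKernel 0 z ζ * κ ζ) * ‖P ζ‖ ^ 2) 0 R ≤ B := by
        apply circleAverage_mono cB'.circleIntegrable' cB.circleIntegrable'
        intro ζ hζ
        have h2 := pk_nonneg hzR hζ
        have h3 := hκ1 ζ hζ
        have h4 : poissonKernel 0 z ζ * κ ζ ≤ poissonKernel 0 z ζ := mul_le_of_le_one_right h2 h3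
        exact mul_le_mul_of_nonneg_right h4 (sq_nonneg _)
      have h0 : 0 ≤ circleAverage (fun ζ => (poissonKernel 0 z ζ * κ ζ) * ‖P ζ‖ ^ 2) 0 R := by
        apply circleAverage_nonneg_of_nonneg
        intro ζ hζ
        exact mul_nonneg (mul_nonneg (pk_nonneg hzR hζ) (hκ0 ζ hζ)) (sq_nonneg _)
      have h5 := hκr z hz
      calc Y ^ 2 ≤ _ := h
        _ ≤ 4 / 5 * circleAverage (fun ζ => (poissonKernel 0 z ζ * κ ζ) * ‖P ζ‖ ^ 2) 0 R :=
          mul_le_mul_of_nonneg_right h5 h0
        _ ≤ 4 / 5 * B := by linarith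
    have hXY : ‖P z‖ ≤ X + Y := by
      have h := DiffContOnCl.circleAverage_poissonKernel_smul (E := ℂ) (f := P)
        (c := 0) (R := R) (w := z) hP.diffContOnCl hzR
      have hcP : ContinuousOn (poissonKernel 0 z • P) (sphere 0 |R|) :=
        hpk.smul hP.continuous.continuousOn
      have h1 : ‖circleAverage (poissonKernel 0 z • P) 0 R‖ ≤
          circleAverage (fun ζ => ‖(poissonKernel 0 z • P) ζ‖) 0 R := by
        rw [circleAverage_def, circleAverage_def, norm_smul, smul_eq_mul,
          Real.norm_of_nonneg (by positivity)]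
        apply mul_le_mul_of_nonneg_left _ (by positivity)
        exact intervalIntegral.norm_integral_le_integral_norm two_pi_pos.le
      rw [h] at h1
      refine h1.trans (le_of_eq ?_)
      rw [hX, hY, ← circleAverage_fun_add cX.circleIntegrable' cY.circleIntegrable']
      apply circleAverage_congr_sphere
      intro ζ hζ
      have h2 := pk_nonneg hzR hζ
      simp only [Pi.smul_apply', norm_smul, Real.norm_of_nonneg h2]
      ring
    have hXn : 0 ≤ X := by
      apply circleAverage_nonneg_of_nonneg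
      intro ζ hζ
      exact mul_nonneg (pk_nonneg hzR hζ) (mul_nonneg (by linarith [hκ1 ζ hζ]) (norm_nonneg _))
    have hYn : 0 ≤ Y := by
      apply circleAverage_nonneg_of_nonneg
      intro ζ hζ
      exact mul_nonneg (mul_nonneg (pk_nonneg hzR hζ) (hκ0 ζ hζ)) (norm_nonneg _)
    have hgAB : circleAverage (fun ζ => poissonKernel 0 z ζ * g ζ) 0 R = 25 * A + 5 / 6 * B := by
      have : (fun ζ => poissonKernel 0 z ζ * g ζ) = fun ζ =>
          25 * (poissonKernel 0 z ζ * ((1 - κ ζ) * ‖P ζ‖) ^ 2) +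
            5 / 6 * (poissonKernel 0 z ζ * ‖P ζ‖ ^ 2) := by
        funext ζ
        simp only [hg]
        ring
      rw [this, avg_lin 25 (5 / 6) cA.circleIntegrable' cB.circleIntegrable']
    rw [hgAB]
    have h6 : ‖P z‖ ^ 2 ≤ (X + Y) ^ 2 := by
      exact pow_le_pow_left₀ (norm_nonneg _) hXY 2
    nlinarith [sq_nonneg (24 * X - Y), h6, hX2, hY2]
  have hgp : ContinuousOn (fun z => ‖P z‖ ^ 2) (sphere 0 |r|) :=
    (hP.continuous.norm.pow 2).continuousOn
  have h1 : circleAverage (fun z => ‖P z‖ ^ 2) 0 r ≤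
      circleAverage (fun z => circleAverage (fun ζ => poissonKernel 0 z ζ * g ζ) 0 R) 0 r := by
    by_cases hi : CircleIntegrable
        (fun z => circleAverage (fun ζ => poissonKernel 0 z ζ * g ζ) 0 R) 0 r
    · exact circleAverage_mono hgp.circleIntegrable' hi hpt
    · exfalso
      apply hi
      -- continuity of the Poisson integral on the smaller circle
      have hgC : ContinuousOn (fun ζ => (g ζ : ℂ)) (sphere 0 |R|) :=
        Complex.continuous_ofReal.comp_continuousOn hgc
      have hHa : AnalyticOnNhd ℂ (fun w => circleAverage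
          (fun ζ ↦ herglotzRieszKernel 0 w ζ • (g ζ : ℂ)) 0 R) (ball 0 R) :=
        analyticOnNhd_circleAverage_herglotzRieszKernel_smul hgC.circleIntegrable'
      have hsub : sphere (0 : ℂ) |r| ⊆ ball 0 R := by
        rw [abs_of_nonneg hr]
        exact sphere_subset_closedBall.trans (closedBall_subset_ball hrR)
      have hcont : ContinuousOn (fun z => circleAverage (fun ζ => poissonKernel 0 z ζ * g ζ) 0 R)
          (sphere 0 |r|) := by
        have h2 : ContinuousOn (fun w => (circleAverage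
          (fun ζ ↦ herglotzRieszKernel 0 w ζ • (g ζ : ℂ)) 0 R).re) (sphere 0 |r|) :=
          Complex.continuous_re.comp_continuousOn (hHa.continuousOn.mono hsub)
        refine h2.congr fun z hz => ?_
        show _ = (circleAverage (fun ζ ↦ herglotzRieszKernel 0 z ζ • (g ζ : ℂ)) 0 R).re
        rw [re_circleAverage_herglotzRieszKernel_smul hgc.circleIntegrable' (hsub hz),
          ← poissonKernel_eq_re_herglotzRieszKernel]
        rfl
      exact hcont.circleIntegrable'
  rw [avg_poisson hr hrR hgc] at h1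
  refine h1.trans (le_of_eq ?_)
  rw [hg, avg_lin 25 (5 / 6) hc1.circleIntegrable' hc2.circleIntegrable']

end Pool.Agent.K6.H31.WI
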