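import Pool.Agent.K6.H31.WI.Limit
import Pool.Agent.K6.H31.WI.Kernel

/-! The core estimates. -/

set_option autoImplicit false

open Real Complex Metric Set Filter Topology

namespace Pool.Agent.K6.H31.WI

/-- the weight on the circle of radius `r_m` -/
noncomputable def kap (m : ℕ) (ζ : ℂ) : ℝ :=
  1 - Real.exp (-((stg m).T - ((stg m).Q.eval (ζ / (stg m).r)).re))

theorem norm_div_r {m : ℕ} {ζ : ℂ} (h : ζ ∈ sphere (0 : ℂ) |(stg m).r|) :
    ‖ζ / ((stg m).r : ℂ)‖ = 1 := by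
  have h1 : ‖ζ‖ = |(stg m).r| := by simpa using h
  have h0 := r_pos m
  rw [norm_div, h1, Complex.norm_real, Real.norm_eq_abs, div_self]
  exact (abs_pos.2 h0.ne').ne'

theorem kap_cont (m : ℕ) : Continuous (kap m) := by
  unfold kap
  have h1 : Continuous fun ζ : ℂ => (stg m).Q.eval (ζ / (stg m).r) :=
    (Polynomial.continuous _).comp (continuous_id.div_const _)
  exact continuous_const.sub (Real.continuous_exp.comp
    ((continuous_const.sub (Complex.continuous_re.comp h1)).neg))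

theorem kap_nonneg {m : ℕ} {ζ : ℂ} (h : ζ ∈ sphere (0 : ℂ) |(stg m).r|) : 0 ≤ kap m ζ := by
  unfold kap
  have h1 := (inv m).re_le _ (norm_div_r h).le
  have h2 : Real.exp (-((stg m).T - ((stg m).Q.eval (ζ / (stg m).r)).re)) ≤ 1 :=
    Real.exp_le_one_iff.2 (by linarith)
  linarith

theorem kap_le_one {m : ℕ} {ζ : ℂ} : kap m ζ ≤ 1 := by
  unfold kap
  have := Real.exp_pos (-((stg m).T - ((stg m).Q.eval (ζ / (stg m).r)).re))
  linarith

theorem kap_le {m : ℕ} {ζ : ℂ} (h : ζ ∈ sphere (0 : ℂ) |(stg (m + 1)).r|) :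
    kap (m + 1) ζ ≤ 1 / 16 + 2 / 3 + 2 / 3 * ((ζ / (stg (m + 1)).r) ^ (stg (m + 1)).k).re := by
  set w : ℂ := ζ / (stg (m + 1)).r with hw
  have hw1 : ‖w‖ = 1 := norm_div_r h
  have hwk : ‖w ^ (stg (m + 1)).k‖ = 1 := by rw [norm_pow, hw1, one_pow]
  by_cases hc : (w ^ (stg (m + 1)).k).re ≤ 1 / 2
  · have h1 := (step m).large w hw1 hc
    have h2 : kap (m + 1) ζ ≤ (stg (m + 1)).T - ((stg (m + 1)).Q.eval w).re := by
      unfold kap
      have := Real.add_one_le_exp (-((stg (m + 1)).T - ((stg (m + 1)).Q.eval w).re))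
      linarith
    have h3 : -1 ≤ (w ^ (stg (m + 1)).k).re := by
      have := Complex.abs_re_le_norm (w ^ (stg (m + 1)).k)
      rw [hwk] at this
      exact (abs_le.1 this).1
    linarith
  · push Not at hc
    have := kap_le_one (m := m + 1) (ζ := ζ)
    linarith

/-- real parts of powers: Poisson integral -/
theorem pk_pow {R : ℝ} (hR : 0 < R) (k : ℕ) {z : ℂ} (hz : z ∈ ball (0 : ℂ) R) :
    circleAverage (fun ζ => poissonKernel 0 z ζ * ((ζ / (R : ℂ)) ^ k).re) 0 R =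
      ((z / (R : ℂ)) ^ k).re := by
  have hd : Differentiable ℂ fun ζ : ℂ => (ζ / (R : ℂ)) ^ k := by fun_prop
  have h := DiffContOnCl.circleAverage_poissonKernel_smul (E := ℂ)
    (f := fun ζ : ℂ => (ζ / (R : ℂ)) ^ k) (c := 0) (R := R) (w := z) hd.diffContOnCl hz
  have hc : ContinuousOn (poissonKernel 0 z • fun ζ : ℂ => (ζ / (R : ℂ)) ^ k) (sphere 0 |R|) :=
    (continuousOn_pk hz).smul hd.continuous.continuousOn
  have h2 := Complex.reCLM.circleAverage_comp_comm (c := 0) (R := R) hc.circleIntegrable'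
  rw [h] at h2
  rw [Complex.reCLM_apply] at h2
  rw [← h2]
  congr 1
  funext ζ
  simp

theorem kap_avg (m : ℕ) {z : ℂ} (hz : z ∈ sphere (0 : ℂ) |(stg m).r|) :
    circleAverage (fun ζ => poissonKernel 0 z ζ * kap (m + 1) ζ) 0 (stg (m + 1)).r ≤ 4 / 5 := by
  set R := (stg (m + 1)).r with hR
  set k := (stg (m + 1)).k with hk
  have hR0 : 0 < R := r_pos (m + 1)
  have hr0 := r_pos m
  have hzr : ‖z‖ = (stg m).r := by simpa [abs_of_pos hr0] using hz
  have hzR : z ∈ ball (0 : ℂ) R := by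
    simpa [hzr] using r_lt_succ m
  have hpk := continuousOn_pk hzR
  have hcw : Continuous fun ζ : ℂ => ((ζ / (R : ℂ)) ^ k).re := by fun_prop
  have h1 : circleAverage (fun ζ => poissonKernel 0 z ζ * kap (m + 1) ζ) 0 R ≤
      circleAverage (fun ζ => (1 / 16 + 2 / 3) * poissonKernel 0 z ζ +
        2 / 3 * (poissonKernel 0 z ζ * ((ζ / (R : ℂ)) ^ k).re)) 0 R := by
    apply circleAverage_mono
    · exact (hpk.mul (kap_cont (m + 1)).continuousOn).circleIntegrable'
    · exact ((continuousOn_const.mul hpk).add (continuousOn_const.mul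
        (hpk.mul hcw.continuousOn))).circleIntegrable'
    · intro ζ hζ
      have h2 := pk_nonneg hzR hζ
      have h3 := kap_le hζ
      have h4 := mul_le_mul_of_nonneg_left h3 h2
      linarith
  refine h1.trans ?_
  rw [avg_lin (g₁ := poissonKernel 0 z)
    (g₂ := fun ζ => poissonKernel 0 z ζ * ((ζ / (R : ℂ)) ^ k).re) (1 / 16 + 2 / 3) (2 / 3)
    hpk.circleIntegrable' (hpk.mul hcw.continuousOn).circleIntegrable', pk_avg hzR,
    pk_pow hR0 k hzR]
  have h5 : ((z / (R : ℂ)) ^ k).re ≤ 1 / 10 := by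
    refine (Complex.re_le_norm _).trans ?_
    rw [norm_pow, norm_div, hzr, Complex.norm_real, Real.norm_of_nonneg hR0.le]
    exact (step m).freq
  linarith

/-- the weights -/
noncomputable def cc (m : ℕ) : ℝ := (9 / 10) ^ m * Real.exp (-(2 * (stg m).T))

theorem cc_pos (m : ℕ) : 0 < cc m := by unfold cc; positivity

theorem re_L_ge {m : ℕ} {ζ : ℂ} (h : ζ ∈ sphere (0 : ℂ) |(stg (m + 1)).r|) :
    ((stg (m + 1)).Q.eval (ζ / (stg (m + 1)).r)).re - 2 ≤ (L ζ).re := by
  have h0 := r_pos (m + 1)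
  have hζ : ‖ζ‖ = (stg (m + 1)).r := by simpa [abs_of_pos h0] using h
  have h1 := L_close (le_refl (m + 1)) hζ.le
  have h2 := (step m).radial (ζ / (stg (m + 1)).r) (norm_div_r h)
  have h3 : ((stg (m + 1)).r : ℂ) * (ζ / (stg (m + 1)).r) = ζ := by
    have : ((stg (m + 1)).r : ℂ) ≠ 0 := by exact_mod_cast h0.ne'
    field_simp
  rw [h3] at h2
  have h4 : ((1 : ℝ) / 2) ^ (m + 1) ≤ 1 := pow_le_one₀ (by norm_num) (by norm_num)
  have h5 := Complex.abs_re_le_norm (L ζ - (stg (m + 1)).Q.eval ζ)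
  have h6 := Complex.abs_re_le_norm ((stg (m + 1)).Q.eval ζ -
    (stg (m + 1)).Q.eval (ζ / (stg (m + 1)).r))
  rw [Complex.sub_re] at h5 h6
  have h7 := (abs_le.1 (h5.trans (h1.trans h4))).1
  have h8 := (abs_le.1 (h6.trans h2)).1
  linarith

theorem f_cont_sphere (m : ℕ) : ContinuousOn f (sphere (0 : ℂ) |(stg m).r|) := by
  refine f_diff.continuousOn.mono ?_
  intro z hz
  have h1 : ‖z‖ = |(stg m).r| := by simpa using hz
  rw [abs_of_pos (r_pos m)] at h1
  simpa [h1] using r_lt_one m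

theorem weight_le {m : ℕ} {P : ℂ → ℂ} {ζ : ℂ} (h : ζ ∈ sphere (0 : ℂ) |(stg (m + 1)).r|) :
    (1 - kap (m + 1) ζ) ^ 2 * ‖P ζ‖ ^ 2 ≤
      Real.exp (4 - 2 * (stg (m + 1)).T) * ‖P ζ * f ζ‖ ^ 2 := by
  have h1 := re_L_ge h
  rw [norm_mul, mul_pow, mul_comm (‖P ζ‖ ^ 2), ← mul_assoc]
  apply mul_le_mul_of_nonneg_right _ (sq_nonneg _)
  unfold kap f
  rw [Complex.norm_exp, sub_sub_cancel, ← Real.exp_nat_mul, ← Real.exp_nat_mul, ← Real.exp_add]
  apply Real.exp_le_exp.2
  push_cast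
  linarith

/-- The recursion for the averages of `|P|²`. -/
theorem rec_ineq {P : ℂ → ℂ} (hP : Differentiable ℂ P) {C : ℝ}
    (hC : ∀ m : ℕ, cc (m + 1) * circleAverage (fun z => ‖P z * f z‖ ^ 2) 0 (stg (m + 1)).r ≤ C)
    (m : ℕ) :
    circleAverage (fun z => ‖P z‖ ^ 2) 0 (stg m).r ≤
      25 * Real.exp 4 * C * (10 / 9) ^ (m + 1) +
      5 / 6 * circleAverage (fun z => ‖P z‖ ^ 2) 0 (stg (m + 1)).r := by
  have h1 := key_step (r_pos m).le (r_lt_succ m) hP (kap_cont (m + 1)).continuousOn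
    (fun z hz => kap_nonneg hz) (fun z _ => kap_le_one) (fun z hz => kap_avg m hz)
  have h2 : circleAverage (fun z => (1 - kap (m + 1) z) ^ 2 * ‖P z‖ ^ 2) 0 (stg (m + 1)).r ≤
      Real.exp 4 * C * (10 / 9) ^ (m + 1) := by
    have hPf : ContinuousOn (fun z => ‖P z * f z‖ ^ 2) (sphere (0 : ℂ) |(stg (m + 1)).r|) :=
      ((hP.continuous.continuousOn.mul (f_cont_sphere (m + 1))).norm).pow 2
    have h3 : circleAverage (fun z => (1 - kap (m + 1) z) ^ 2 * ‖P z‖ ^ 2) 0 (stg (m + 1)).r ≤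
        circleAverage (fun z => Real.exp (4 - 2 * (stg (m + 1)).T) • ‖P z * f z‖ ^ 2) 0
          (stg (m + 1)).r := by
      apply circleAverage_mono
      · exact (((continuous_const.sub (kap_cont (m + 1))).pow 2).mul
          (hP.continuous.norm.pow 2)).continuousOn.circleIntegrable'
      · exact hPf.circleIntegrable'.const_smul
      · intro ζ hζ
        exact weight_le hζ
    rw [circleAverage_fun_smul, smul_eq_mul] at h3
    refine h3.trans ?_
    have h4 := hC m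
    unfold cc at h4
    have h5 : Real.exp (4 - 2 * (stg (m + 1)).T) = Real.exp 4 * (10 / 9) ^ (m + 1) *
        ((9 / 10) ^ (m + 1) * Real.exp (-(2 * (stg (m + 1)).T))) := by
      have h6 : ((10 : ℝ) / 9) ^ (m + 1) * (9 / 10) ^ (m + 1) = 1 := by
        rw [← mul_pow]
        norm_num
      rw [sub_eq_add_neg, Real.exp_add]
      calc Real.exp 4 * Real.exp (-(2 * (stg (m + 1)).T)) =
          Real.exp 4 * Real.exp (-(2 * (stg (m + 1)).T)) *
            (((10 : ℝ) / 9) ^ (m + 1) * (9 / 10) ^ (m + 1)) := by rw [h6, mul_one]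
        _ = _ := by ring
    rw [h5, mul_assoc]
    calc Real.exp 4 * (10 / 9) ^ (m + 1) *
          ((9 / 10) ^ (m + 1) * Real.exp (-(2 * (stg (m + 1)).T)) *
            circleAverage (fun z => ‖P z * f z‖ ^ 2) 0 (stg (m + 1)).r) ≤
          Real.exp 4 * (10 / 9) ^ (m + 1) * C := by gcongr
      _ = _ := by ring
  linarith

/-- Bound for the averages of `|P|²`. -/
theorem avg_bound {P : ℂ → ℂ} (hP : Differentiable ℂ P) {C : ℝ}
    (hC : ∀ m : ℕ, cc (m + 1) * circleAverage (fun z => ‖P z * f z‖ ^ 2) 0 (stg (m + 1)).r ≤ C)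
    (m : ℕ) :
    circleAverage (fun z => ‖P z‖ ^ 2) 0 (stg m).r ≤ 375 * Real.exp 4 * C * (10 / 9) ^ m := by
  obtain ⟨B, hB⟩ := (isCompact_closedBall (0 : ℂ) 1).exists_bound_of_continuousOn
    (f := P) hP.continuous.continuousOn
  have hB0 : ∀ n : ℕ, circleAverage (fun z => ‖P z‖ ^ 2) 0 (stg n).r ≤ B ^ 2 := by
    intro n
    apply circleAverage_mono_on_of_le_circle
    · exact (hP.continuous.norm.pow 2).continuousOn.circleIntegrable'
    · intro x hx
      have h1 : ‖x‖ = |(stg n).r| := by simpa using hx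
      rw [abs_of_pos (r_pos n)] at h1
      have h2 : ‖P x‖ ≤ B := hB x (by simpa [h1] using (r_lt_one n).le)
      exact pow_le_pow_left₀ (norm_nonneg _) h2 2
  have key : ∀ j n : ℕ, circleAverage (fun z => ‖P z‖ ^ 2) 0 (stg n).r ≤
      375 * Real.exp 4 * C * (10 / 9) ^ n + (5 / 6) ^ j * B ^ 2 := by
    have hC0 : 0 ≤ C := by
      refine le_trans ?_ (hC 0)
      apply mul_nonneg (cc_pos _).le
      apply circleAverage_nonneg_of_nonneg
      intro x _
      positivity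
    intro j
    induction j with
    | zero =>
      intro n
      have h1 := hB0 n
      have h2 : 0 ≤ 375 * Real.exp 4 * C * (10 / 9) ^ n := by positivity
      rw [pow_zero, one_mul]
      linarith
    | succ j ih =>
      intro n
      have h1 := rec_ineq hP hC n
      have h2 := ih (n + 1)
      have h3 : circleAverage (fun z => ‖P z‖ ^ 2) 0 (stg n).r ≤
        25 * Real.exp 4 * C * (10 / 9) ^ (n + 1) + 5 / 6 * (375 * Real.exp 4 * C * (10 / 9) ^ (n + 1) +
          (5 / 6) ^ j * B ^ 2) := by linarith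
      refine h3.trans (le_of_eq ?_)
      rw [pow_succ, pow_succ]
      ring
  have hlim : Tendsto (fun j : ℕ => 375 * Real.exp 4 * C * (10 / 9) ^ m + (5 / 6) ^ j * B ^ 2) atTop
      (𝓝 (375 * Real.exp 4 * C * (10 / 9) ^ m + 0 * B ^ 2)) :=
    tendsto_const_nhds.add ((tendsto_pow_atTop_nhds_zero_of_lt_one (by norm_num)
      (by norm_num)).mul_const _)
  rw [zero_mul, add_zero] at hlim
  exact ge_of_tendsto' hlim fun j => key j m

/-- Lower bound for the average of `|f|⁻²`. -/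
theorem lower (m : ℕ) (hT : 2 ≤ (stg (m + 1)).T) :
    2 / 3 * Real.exp (-2) * ((stg (m + 1)).T - 2) ≤
      circleAverage (fun z => ‖(f z)⁻¹‖ ^ 2) 0 (stg (m + 1)).r := by
  set R := (stg (m + 1)).r with hR
  set k := (stg (m + 1)).k with hk
  set T := (stg (m + 1)).T with hTdef
  set Q := (stg (m + 1)).Q with hQ
  have hR0 : 0 < R := r_pos (m + 1)
  have hRc : (R : ℂ) ≠ 0 := by exact_mod_cast hR0.ne'
  have hk0 : 0 < k := (step m).kpos
  have cQ : Continuous fun ζ : ℂ => (Q.eval ζ).re :=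
    Complex.continuous_re.comp (Polynomial.continuous _)
  have cw : Continuous fun ζ : ℂ => ((ζ / (R : ℂ)) ^ k).re := by fun_prop
  have avgQ : circleAverage (fun ζ : ℂ => (Q.eval ζ).re) 0 R = 0 := by
    have h1 := (Polynomial.differentiable Q).diffContOnCl.circleAverage (c := 0) (R := R)
    have h2 := Complex.reCLM.circleAverage_comp_comm (f := fun ζ : ℂ => Q.eval ζ) (c := 0) (R := R)
      (Polynomial.continuous Q).continuousOn.circleIntegrable'
    rw [h1] at h2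
    have h3 : Q.eval 0 = 0 := (inv (m + 1)).zero
    rw [h3, map_zero] at h2
    exact h2
  have avgw : circleAverage (fun ζ : ℂ => ((ζ / (R : ℂ)) ^ k).re) 0 R = 0 := by
    have hd : Differentiable ℂ fun ζ : ℂ => (ζ / (R : ℂ)) ^ k := by fun_prop
    have h1 := hd.diffContOnCl.circleAverage (c := 0) (R := R)
    have h2 := Complex.reCLM.circleAverage_comp_comm (f := fun ζ : ℂ => (ζ / (R : ℂ)) ^ k)
      (c := 0) (R := R) hd.continuous.continuousOn.circleIntegrable'
    rw [h1] at h2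
    simp only [zero_div, zero_pow hk0.ne', map_zero] at h2
    exact h2
  have hpt : ∀ ζ ∈ sphere (0 : ℂ) |R|, Real.exp (-2) * (2 * (T - 2) * (1 / 3)) +
      Real.exp (-2) * ((-(4 / 3) * (T - 2)) * ((ζ / (R : ℂ)) ^ k).re + (-2) * (Q.eval ζ).re) ≤
      ‖(f ζ)⁻¹‖ ^ 2 := by
    intro ζ hζ
    have hζR : ‖ζ‖ = R := by simpa [abs_of_pos hR0] using hζ
    set w : ℂ := ζ / (R : ℂ) with hw
    have hw1 : ‖w‖ = 1 := norm_div_r hζ
    have hRw : (R : ℂ) * w = ζ := by rw [hw]; field_simp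
    have hwk : ‖w ^ k‖ = 1 := by rw [norm_pow, hw1, one_pow]
    have hwk1 : |(w ^ k).re| ≤ 1 := by
      have := Complex.abs_re_le_norm (w ^ k)
      rwa [hwk] at this
    have hL := L_close (le_refl (m + 1)) hζR.le
    have h4 : ((1 : ℝ) / 2) ^ (m + 1) ≤ 1 := pow_le_one₀ (by norm_num) (by norm_num)
    have h5 := Complex.abs_re_le_norm (L ζ - Q.eval ζ)
    rw [Complex.sub_re] at h5
    have h6 := (abs_le.1 (h5.trans (hL.trans h4))).2
    set a : ℝ := (Q.eval ζ).re with ha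
    have hf : Real.exp (-2) * Real.exp (-2 * a) ≤ ‖(f ζ)⁻¹‖ ^ 2 := by
      unfold f
      rw [← Complex.exp_neg, Complex.norm_exp, ← Real.exp_nat_mul, ← Real.exp_add]
      apply Real.exp_le_exp.2
      rw [Complex.neg_re]
      push_cast
      linarith
    refine le_trans ?_ hf
    rw [← mul_add]
    apply mul_le_mul_of_nonneg_left _ (Real.exp_pos _).le
    -- `g ≤ a⁺`
    have hexp1 : 2 * a + -2 * a ≤ Real.exp (-2 * a) := by
      have := Real.exp_pos (-2 * a)
      linarith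
    have hexp2 : 1 + -2 * a ≤ Real.exp (-2 * a) := by
      have := Real.add_one_le_exp (-2 * a)
      linarith
    by_cases hc : (w ^ k).re ≤ 1 / 2
    · have h7 := (step m).large w hw1 hc
      have h8 := (step m).radial w hw1
      rw [hRw] at h8
      have h9 := Complex.abs_re_le_norm (Q.eval ζ - Q.eval w)
      rw [Complex.sub_re] at h9
      have h10 := (abs_le.1 (h9.trans h8)).1
      have h11 : T - 2 ≤ a := by
        simp only [← hQ, ← hTdef] at h7
        linarith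
      have h12 : (T - 2) * (1 / 3 - 2 / 3 * (w ^ k).re) ≤ (T - 2) * 1 := by
        apply mul_le_mul_of_nonneg_left _ (by linarith)
        linarith [(abs_le.1 hwk1).1]
      nlinarith
    · push Not at hc
      have h12 : (T - 2) * (1 / 3 - 2 / 3 * (w ^ k).re) ≤ 0 := by
        apply mul_nonpos_of_nonneg_of_nonpos (by linarith)
        linarith
      nlinarith
  have hcf : ContinuousOn (fun z => ‖(f z)⁻¹‖ ^ 2) (sphere (0 : ℂ) |R|) := by
    refine ((f_cont_sphere (m + 1)).inv₀ ?_).norm.pow 2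
    intro z _
    exact Complex.exp_ne_zero _
  have h1 : circleAverage (fun ζ => (Real.exp (-2) * (2 * (T - 2) * (1 / 3))) * 1 +
      Real.exp (-2) * ((-(4 / 3) * (T - 2)) * ((ζ / (R : ℂ)) ^ k).re + (-2) * (Q.eval ζ).re)) 0 R ≤
      circleAverage (fun z => ‖(f z)⁻¹‖ ^ 2) 0 R := by
    apply circleAverage_mono
    · apply ContinuousOn.circleIntegrable'
      fun_prop
    · exact hcf.circleIntegrable'
    · intro ζ hζ
      have := hpt ζ hζ
      linarith
  rw [avg_lin (g₁ := fun _ => (1 : ℝ))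
    (g₂ := fun ζ : ℂ => (-(4 / 3) * (T - 2)) * ((ζ / (R : ℂ)) ^ k).re + (-2) * (Q.eval ζ).re) _ _
    (continuousOn_const.circleIntegrable') (by apply ContinuousOn.circleIntegrable'; fun_prop),
    avg_lin (g₁ := fun ζ : ℂ => ((ζ / (R : ℂ)) ^ k).re) (g₂ := fun ζ : ℂ => (Q.eval ζ).re) _ _
    cw.continuousOn.circleIntegrable' cQ.continuousOn.circleIntegrable', avgQ, avgw,
    circleAverage_const] at h1
  linarith

/-- The function `f` cannot be approximately inverted by polynomials. -/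
theorem core (C : ℝ) : ∃ n : ℕ, ∃ ε : ℝ, 0 < ε ∧ ∀ P : ℂ → ℂ, Differentiable ℂ P →
    (∀ m : ℕ, cc (m + 1) * circleAverage (fun z => ‖P z * f z‖ ^ 2) 0 (stg (m + 1)).r ≤ C) →
    ε ≤ circleAverage (fun z => ‖P z * f z - 1‖ ^ 2) 0 (stg (n + 1)).r := by
  set K : ℝ := 375 * Real.exp 4 * C with hK
  -- choice of `n`
  obtain ⟨n, hn1, hn2⟩ : ∃ n : ℕ, 2 ≤ (stg (n + 1)).T ∧
      2 * (K * (10 / 9) ^ (n + 1)) + 1 < 2 / 3 * Real.exp (-2) * ((stg (n + 1)).T - 2) := by
    have h1 : Tendsto (fun n : ℕ => (2 * K * (10 / 9)) * (5 / 9 : ℝ) ^ n + 3 * (1 / 2 : ℝ) ^ n)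
        atTop (𝓝 ((2 * K * (10 / 9)) * 0 + 3 * 0)) :=
      ((tendsto_pow_atTop_nhds_zero_of_lt_one (by norm_num) (by norm_num)).const_mul _).add
        ((tendsto_pow_atTop_nhds_zero_of_lt_one (by norm_num) (by norm_num)).const_mul _)
    rw [mul_zero, mul_zero, add_zero] at h1
    have h2 : ∀ᶠ n : ℕ in atTop, (2 * K * (10 / 9)) * (5 / 9 : ℝ) ^ n + 3 * (1 / 2 : ℝ) ^ n <
        2 / 3 * Real.exp (-2) := h1.eventually (gt_mem_nhds (by positivity))
    obtain ⟨n, hn, hn'⟩ := (h2.and (eventually_ge_atTop 1)).exists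
    have hT := T_pow n
    have h2n : (2 : ℝ) ≤ 2 ^ n := by
      calc (2 : ℝ) = 2 ^ 1 := (pow_one _).symm
        _ ≤ 2 ^ n := pow_le_pow_right₀ (by norm_num) hn'
    refine ⟨n, h2n.trans hT, ?_⟩
    have h3 : ((2 * K * (10 / 9)) * (5 / 9 : ℝ) ^ n + 3 * (1 / 2 : ℝ) ^ n) * 2 ^ n <
        2 / 3 * Real.exp (-2) * 2 ^ n := mul_lt_mul_of_pos_right hn (by positivity)
    have h4 : (5 / 9 : ℝ) ^ n * 2 ^ n = (10 / 9) ^ n := by
      rw [← mul_pow]; norm_num
    have h5 : (1 / 2 : ℝ) ^ n * 2 ^ n = 1 := by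
      rw [← mul_pow]; norm_num
    have h6 : ((2 * K * (10 / 9)) * (5 / 9 : ℝ) ^ n + 3 * (1 / 2 : ℝ) ^ n) * 2 ^ n =
        2 * (K * (10 / 9) ^ (n + 1)) + 3 := by
      rw [add_mul, mul_assoc, h4, mul_assoc 3, h5, pow_succ]
      ring
    rw [h6] at h3
    have h7 : Real.exp (-2) ≤ 1 := Real.exp_le_one_iff.2 (by norm_num)
    have h8 : 0 < Real.exp (-2) := Real.exp_pos _
    have h9 : 2 / 3 * Real.exp (-2) * 2 ^ n ≤ 2 / 3 * Real.exp (-2) * (stg (n + 1)).T := by
      gcongr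
    nlinarith
  set R := (stg (n + 1)).r with hR
  have hR0 : 0 < R := r_pos (n + 1)
  set φ : ℝ := Real.exp (2 * ((stg (n + 1)).T + (stg (n + 1)).S + 1)) with hφ
  have hφ0 : 0 < φ := Real.exp_pos _
  refine ⟨n, 1 / (2 * φ), by positivity, fun P hP hC => ?_⟩
  have h1 := avg_bound hP hC (n + 1)
  have h2 := lower n hn1
  have hfc := f_cont_sphere (n + 1)
  have hfi : ContinuousOn (fun z => (f z)⁻¹) (sphere (0 : ℂ) |R|) :=
    hfc.inv₀ fun z _ => Complex.exp_ne_zero _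
  have h3 : circleAverage (fun z => ‖(f z)⁻¹‖ ^ 2) 0 R ≤
      circleAverage (fun z => 2 * ‖P z‖ ^ 2 + (2 * φ) * ‖P z * f z - 1‖ ^ 2) 0 R := by
    apply circleAverage_mono
    · exact (hfi.norm.pow 2).circleIntegrable'
    · exact ((continuousOn_const.mul (hP.continuous.norm.pow 2).continuousOn).add
        (continuousOn_const.mul (((hP.continuous.continuousOn.mul hfc).sub
          continuousOn_const).norm.pow 2))).circleIntegrable'
    · intro z hz
      have hzR : ‖z‖ = R := by simpa [abs_of_pos hR0] using hz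
      have hf0 : f z ≠ 0 := Complex.exp_ne_zero _
      have hfb : ‖(f z)⁻¹‖ ^ 2 ≤ φ := by
        unfold f
        rw [← Complex.exp_neg, Complex.norm_exp, ← Real.exp_nat_mul, hφ]
        apply Real.exp_le_exp.2
        have hL := L_close (le_refl (n + 1)) hzR.le
        have h4 : ((1 : ℝ) / 2) ^ (n + 1) ≤ 1 := pow_le_one₀ (by norm_num) (by norm_num)
        have h5 := Complex.abs_re_le_norm (L z - (stg (n + 1)).Q.eval z)
        rw [Complex.sub_re] at h5
        have h6 := (abs_le.1 (h5.trans (hL.trans h4))).1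
        have h7 := (inv (n + 1)).bd z (hzR.le.trans (r_lt_one (n + 1)).le)
        have h8 := Complex.abs_re_le_norm ((stg (n + 1)).Q.eval z)
        have h9 := (abs_le.1 (h8.trans h7)).1
        have h10 := (inv (n + 1)).T0
        rw [Complex.neg_re]
        push_cast
        linarith
      have h4 : (f z)⁻¹ = P z - (f z)⁻¹ * (P z * f z - 1) := by
        field_simp
        ring
      have h5 : ‖(f z)⁻¹‖ ≤ ‖P z‖ + ‖(f z)⁻¹‖ * ‖P z * f z - 1‖ := by
        calc ‖(f z)⁻¹‖ = ‖P z - (f z)⁻¹ * (P z * f z - 1)‖ := by rw [← h4]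
          _ ≤ ‖P z‖ + ‖(f z)⁻¹ * (P z * f z - 1)‖ := norm_sub_le _ _
          _ = _ := by rw [norm_mul]
      have h6 : ‖(f z)⁻¹‖ ^ 2 ≤ (‖P z‖ + ‖(f z)⁻¹‖ * ‖P z * f z - 1‖) ^ 2 :=
        pow_le_pow_left₀ (norm_nonneg _) h5 2
      have h7 : ‖(f z)⁻¹‖ ^ 2 * ‖P z * f z - 1‖ ^ 2 ≤ φ * ‖P z * f z - 1‖ ^ 2 :=
        mul_le_mul_of_nonneg_right hfb (sq_nonneg _)
      nlinarith [sq_nonneg (‖P z‖ - ‖(f z)⁻¹‖ * ‖P z * f z - 1‖)]
  rw [avg_lin (g₁ := fun z => ‖P z‖ ^ 2) (g₂ := fun z => ‖P z * f z - 1‖ ^ 2) 2 (2 * φ)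
    (hP.continuous.norm.pow 2).continuousOn.circleIntegrable'
    (((hP.continuous.continuousOn.mul hfc).sub
          continuousOn_const).norm.pow 2).circleIntegrable'] at h3
  have h4 : 1 ≤ 2 * φ * circleAverage (fun z => ‖P z * f z - 1‖ ^ 2) 0 R := by
    have h5 : 375 * Real.exp 4 * C * (10 / 9) ^ (n + 1) = K * (10 / 9) ^ (n + 1) := by rw [hK]
    rw [h5] at h1
    linarith
  rw [div_le_iff₀ (by positivity)]
  linarith

end Pool.Agent.K6.H31.WI
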