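import Mathlib

/-! The Fejer kernel and the construction of the polynomials. -/

set_option autoImplicit false

open Complex Metric Set Filter Topology

namespace Pool.Agent.K6.H31.WI

/-- `N + 1` times the Fejer kernel. -/
noncomputable def F (N : ℕ) (w : ℂ) : ℝ :=
  (N + 1 : ℝ) + 2 * ∑ j ∈ Finset.range N, ((N : ℝ) - j) * (w ^ (j + 1)).re

theorem F_eq (N : ℕ) {w : ℂ} (hw : ‖w‖ = 1) :
    F N w = ‖∑ j ∈ Finset.range (N + 1), w ^ j‖ ^ 2 := by
  induction N with
  | zero => simp [F]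
  | succ N ih =>
    have hconj : ∀ n : ℕ, w ^ n * (starRingEnd ℂ) (w ^ n) = 1 := by
      intro n
      rw [Complex.mul_conj, Complex.normSq_eq_norm_sq, norm_pow, hw]
      simp
    have h1 : F (N + 1) w = F N w + 1 + 2 * ∑ j ∈ Finset.range (N + 1), (w ^ (j + 1)).re := by
      unfold F
      have h2 : ∑ j ∈ Finset.range N, ((N : ℝ) - j) * (w ^ (j + 1)).re =
          ∑ j ∈ Finset.range (N + 1), ((N : ℝ) - j) * (w ^ (j + 1)).re := by
        rw [Finset.sum_range_succ]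
        simp
      rw [h2]
      have h3 : ∑ j ∈ Finset.range (N + 1), (((N + 1 : ℕ) : ℝ) - j) * (w ^ (j + 1)).re =
          ∑ j ∈ Finset.range (N + 1), ((N : ℝ) - j) * (w ^ (j + 1)).re +
          ∑ j ∈ Finset.range (N + 1), (w ^ (j + 1)).re := by
        rw [← Finset.sum_add_distrib]
        refine Finset.sum_congr rfl fun j _ => ?_
        push_cast
        ring
      rw [h3]
      push_cast
      ring
    rw [h1, ih, Finset.sum_range_succ (n := N + 1)]
    set S := ∑ j ∈ Finset.range (N + 1), w ^ j with hS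
    rw [← Complex.normSq_eq_norm_sq, ← Complex.normSq_eq_norm_sq, Complex.normSq_add]
    have h4 : Complex.normSq (w ^ (N + 1)) = 1 := by
      rw [Complex.normSq_eq_norm_sq, norm_pow, hw]
      simp
    have h5 : (S * (starRingEnd ℂ) (w ^ (N + 1))).re =
        ∑ j ∈ Finset.range (N + 1), (w ^ (j + 1)).re := by
      rw [hS, Finset.sum_mul, Complex.re_sum, ← Finset.sum_range_reflect]
      refine Finset.sum_congr rfl fun j hj => ?_
      have hj' : j ≤ N := by
        have := Finset.mem_range.1 hj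
        omega
      have h6 : w ^ (N + 1) = w ^ (N + 1 - 1 - j) * w ^ (j + 1) := by
        rw [← pow_add]
        congr 1
        omega
      rw [h6, map_mul, ← mul_assoc, hconj, one_mul, Complex.conj_re]
    rw [h4, h5]

theorem F_nonneg (N : ℕ) {w : ℂ} (hw : ‖w‖ = 1) : 0 ≤ F N w := by
  rw [F_eq N hw]
  positivity

theorem F_le (N : ℕ) {w : ℂ} (hw : ‖w‖ = 1) (hre : w.re ≤ 1 / 2) : F N w ≤ 4 := by
  rw [F_eq N hw]
  have hne : w ≠ 1 := by
    intro h
    rw [h] at hre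
    norm_num at hre
  have h0 : w - 1 ≠ 0 := sub_ne_zero.2 hne
  have h1 : 1 ≤ ‖w - 1‖ ^ 2 := by
    rw [← Complex.normSq_eq_norm_sq, Complex.normSq_sub, Complex.normSq_eq_norm_sq, hw]
    simp
    linarith
  have h2 : ‖∑ j ∈ Finset.range (N + 1), w ^ j‖ * ‖w - 1‖ ≤ 2 := by
    rw [← norm_mul, geom_sum_mul]
    refine (norm_sub_le _ _).trans ?_
    rw [norm_pow, hw]
    norm_num
  have h3 : (‖∑ j ∈ Finset.range (N + 1), w ^ j‖ * ‖w - 1‖) ^ 2 ≤ 4 := by
    have := pow_le_pow_left₀ (by positivity) h2 2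
    linarith
  rw [mul_pow] at h3
  nlinarith [sq_nonneg ‖∑ j ∈ Finset.range (N + 1), w ^ j‖]

/-- A polynomial which on the unit circle is `z ^ d` times the real function `T - Re Q`. -/
noncomputable def Dp (Q : Polynomial ℂ) (d : ℕ) (T : ℝ) : Polynomial ℂ :=
  Polynomial.C (T : ℂ) * Polynomial.X ^ d - Polynomial.C (1 / 2 : ℂ) *
    (Polynomial.X ^ d * Q + Polynomial.reflect d (Q.map (starRingEnd ℂ)))

theorem Dp_eval {Q : Polynomial ℂ} {d : ℕ} (hd : Q.natDegree ≤ d) (T : ℝ) {z : ℂ}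
    (hz : ‖z‖ = 1) : (Dp Q d T).eval z = z ^ d * ((T - (Q.eval z).re : ℝ) : ℂ) := by
  have hz0 : z ≠ 0 := by
    intro h
    rw [h] at hz
    simp at hz
  have hzc : (starRingEnd ℂ) z = z⁻¹ := by
    rw [Complex.inv_def, Complex.normSq_eq_norm_sq, hz]
    simp
  have h1 : (Polynomial.reflect d (Q.map (starRingEnd ℂ))).eval z =
      z ^ d * (starRingEnd ℂ) (Q.eval z) := by
    let _ : Invertible z⁻¹ := invertibleOfNonzero (inv_ne_zero hz0)
    have h2 := Polynomial.eval₂_reflect_mul_pow (RingHom.id ℂ) z⁻¹ d (Q.map (starRingEnd ℂ))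
      ((Polynomial.natDegree_map_le).trans hd)
    have h3 : (⅟(z⁻¹) : ℂ) = z := by
      rw [invOf_eq_inv, inv_inv]
    rw [h3] at h2
    simp only [Polynomial.eval₂_id] at h2
    have h4 : (Q.map (starRingEnd ℂ)).eval z⁻¹ = (starRingEnd ℂ) (Q.eval z) := by
      rw [← hzc, Polynomial.eval_map, Polynomial.eval₂_hom]
    rw [h4] at h2
    rw [← h2, inv_pow]
    field_simp
  unfold Dp
  simp only [Polynomial.eval_sub, Polynomial.eval_mul, Polynomial.eval_C, Polynomial.eval_pow,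
    Polynomial.eval_X, Polynomial.eval_add, h1]
  have h5 : ((Q.eval z).re : ℂ) = (Q.eval z + (starRingEnd ℂ) (Q.eval z)) / 2 := by
    rw [Complex.re_eq_add_conj]
  push_cast
  rw [h5]
  ring

/-- The correction polynomial. -/
noncomputable def Hp (Q : Polynomial ℂ) (d : ℕ) (T : ℝ) (N k : ℕ) : Polynomial ℂ :=
  ∑ j ∈ Finset.range N, Polynomial.C (((-2 * (((N : ℝ) - j) / (N + 1)) : ℝ)) : ℂ) *
    Polynomial.X ^ ((j + 1) * k - d) * Dp Q d T

theorem Hp_re {Q : Polynomial ℂ} {d : ℕ} (hd : Q.natDegree ≤ d) (T : ℝ) (N k : ℕ) (hk : d ≤ k)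
    {z : ℂ} (hz : ‖z‖ = 1) :
    ((Hp Q d T N k).eval z).re = (T - (Q.eval z).re) * (1 - F N (z ^ k) / (N + 1)) := by
  unfold Hp
  rw [Polynomial.eval_finsetSum, Complex.re_sum]
  have h1 : ∀ j ∈ Finset.range N, (Polynomial.eval z (Polynomial.C
      (((-2 * (((N : ℝ) - j) / (N + 1)) : ℝ)) : ℂ) *
      Polynomial.X ^ ((j + 1) * k - d) * Dp Q d T)).re =
      (T - (Q.eval z).re) * ((-2 / (N + 1)) * (((N : ℝ) - j) * ((z ^ k) ^ (j + 1)).re)) := by
    intro j _
    rw [Polynomial.eval_mul, Polynomial.eval_mul, Polynomial.eval_C, Polynomial.eval_pow,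
      Polynomial.eval_X, Dp_eval hd T hz]
    have h2 : z ^ ((j + 1) * k - d) * z ^ d = (z ^ k) ^ (j + 1) := by
      rw [← pow_add, ← pow_mul]
      congr 1
      have : k ≤ (j + 1) * k := Nat.le_mul_of_pos_left k (Nat.succ_pos j)
      have h3 : (j + 1) * k - d + d = (j + 1) * k := Nat.sub_add_cancel (hk.trans this)
      rw [h3, mul_comm]
    have h4 : (((-2 * (((N : ℝ) - j) / (N + 1)) : ℝ)) : ℂ) * z ^ ((j + 1) * k - d) *
        (z ^ d * ((T - (Q.eval z).re : ℝ) : ℂ)) =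
        (((-2 * (((N : ℝ) - j) / (N + 1)) * (T - (Q.eval z).re) : ℝ)) : ℂ) *
          (z ^ k) ^ (j + 1) := by
      rw [← h2]
      push_cast
      ring
    rw [h4, Complex.re_ofReal_mul]
    ring
  rw [Finset.sum_congr rfl h1, ← Finset.mul_sum, ← Finset.mul_sum]
  unfold F
  have hN : (N + 1 : ℝ) ≠ 0 := by positivity
  field_simp
  ring

theorem Hp_zero {Q : Polynomial ℂ} {d : ℕ} (T : ℝ) (N k : ℕ) (hk : d < k) :
    (Hp Q d T N k).eval 0 = 0 := by
  unfold Hp
  rw [Polynomial.eval_finsetSum]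
  refine Finset.sum_eq_zero fun j _ => ?_
  have : 0 < (j + 1) * k - d := by
    have : k ≤ (j + 1) * k := Nat.le_mul_of_pos_left k (Nat.succ_pos j)
    omega
  rw [Polynomial.eval_mul, Polynomial.eval_mul, Polynomial.eval_pow, Polynomial.eval_X,
    zero_pow this.ne']
  ring

theorem Hp_small {Q : Polynomial ℂ} {d : ℕ} (T : ℝ) (N k : ℕ) (hk : d ≤ k) {M r : ℝ}
    (hr1 : r ≤ 1) (hM : ∀ z : ℂ, ‖z‖ ≤ 1 → ‖(Dp Q d T).eval z‖ ≤ M)
    {z : ℂ} (hz : ‖z‖ ≤ r) : ‖(Hp Q d T N k).eval z‖ ≤ 2 * N * M * r ^ (k - d) := by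
  have hr0 : 0 ≤ r := (norm_nonneg z).trans hz
  have hM0 : 0 ≤ M := (norm_nonneg _).trans (hM 0 (by simp))
  unfold Hp
  rw [Polynomial.eval_finsetSum]
  have h1 : ∀ j ∈ Finset.range N, ‖Polynomial.eval z (Polynomial.C
      (((-2 * (((N : ℝ) - j) / (N + 1)) : ℝ)) : ℂ) *
      Polynomial.X ^ ((j + 1) * k - d) * Dp Q d T)‖ ≤ 2 * M * r ^ (k - d) := by
    intro j hj
    have hjN : (j : ℝ) < N := by exact_mod_cast Finset.mem_range.1 hj
    rw [Polynomial.eval_mul, Polynomial.eval_mul, Polynomial.eval_C, Polynomial.eval_pow,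
      Polynomial.eval_X, norm_mul, norm_mul, norm_pow, Complex.norm_real, Real.norm_eq_abs]
    have h2 : |(-2 * (((N : ℝ) - j) / (N + 1)) : ℝ)| ≤ 2 := by
      rw [abs_mul, abs_of_nonneg (a := ((N : ℝ) - j) / (N + 1))
        (div_nonneg (by linarith) (by positivity))]
      have : ((N : ℝ) - j) / (N + 1) ≤ 1 := by
        rw [div_le_one (by positivity)]
        have : (0 : ℝ) ≤ j := by positivity
        linarith
      norm_num
      linarith
    have h3 : ‖z‖ ^ ((j + 1) * k - d) ≤ r ^ (k - d) := by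
      calc ‖z‖ ^ ((j + 1) * k - d) ≤ r ^ ((j + 1) * k - d) :=
            pow_le_pow_left₀ (norm_nonneg _) hz _
        _ ≤ r ^ (k - d) := by
          apply pow_le_pow_of_le_one hr0 hr1
          have : k ≤ (j + 1) * k := Nat.le_mul_of_pos_left k (Nat.succ_pos j)
          omega
    have h4 : ‖(Dp Q d T).eval z‖ ≤ M := hM z (hz.trans hr1)
    calc |(-2 * (((N : ℝ) - j) / (N + 1)) : ℝ)| * ‖z‖ ^ ((j + 1) * k - d) *
          ‖(Dp Q d T).eval z‖ ≤ 2 * r ^ (k - d) * M := by gcongr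
      _ = 2 * M * r ^ (k - d) := by ring
  refine (norm_sum_le _ _).trans ((Finset.sum_le_sum h1).trans ?_)
  rw [Finset.sum_const, Finset.card_range, nsmul_eq_mul]
  apply le_of_eq
  ring

end Pool.Agent.K6.H31.WI
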