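import Pool.Agent.K6.H31.WI.Step

/-! The limit function. -/

set_option autoImplicit false

open Complex Metric Set Filter Topology

namespace Pool.Agent.K6.H31.WI

theorem r_lt_one (n : ℕ) : (stg n).r < 1 := (inv n).r1
theorem r_pos (n : ℕ) : 0 < (stg n).r := (inv n).r0

theorem r_lt_succ (n : ℕ) : (stg n).r < (stg (n + 1)).r := by
  have h1 := (step n).r_ge
  have h2 := r_lt_one n
  linarith

theorem r_strictMono : StrictMono fun n => (stg n).r := strictMono_nat_of_lt_succ r_lt_succ

theorem one_sub_r (n : ℕ) : 1 - (stg n).r ≤ (1 / 2) ^ (n + 1) := by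
  induction n with
  | zero =>
    show 1 - s0.r ≤ _
    simp [s0]
    norm_num
  | succ n ih =>
    have h1 := (step n).r_ge
    rw [pow_succ]
    linarith

theorem exists_r_gt {x : ℝ} (hx : x < 1) : ∃ n : ℕ, x < (stg n).r := by
  have h1 : ∀ᶠ n : ℕ in atTop, ((1 : ℝ) / 2) ^ n < 1 - x :=
    (tendsto_pow_atTop_nhds_zero_of_lt_one (by norm_num) (by norm_num)).eventually
      (gt_mem_nhds (by linarith))
  obtain ⟨n, hn⟩ := h1.exists
  refine ⟨n, ?_⟩
  have h2 := one_sub_r n
  have h3 : ((1 : ℝ) / 2) ^ (n + 1) ≤ (1 / 2) ^ n :=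
    pow_le_pow_of_le_one (by norm_num) (by norm_num) (Nat.le_succ n)
  linarith

theorem T_le_succ (n : ℕ) : (stg n).T ≤ (stg (n + 1)).T := by
  have h1 := (step n).T_ge
  have h2 : (0 : ℝ) ≤ (n + 1) * ((stg n).S + 1) := by
    have := (inv n).S0
    positivity
  have h3 : (0 : ℝ) ≤ 2 ^ n := by positivity
  linarith

theorem T_mono : Monotone fun n => (stg n).T := monotone_nat_of_le_succ T_le_succ

theorem T_growth (n : ℕ) : (n + 1) * ((stg n).S + 1) ≤ (stg (n + 1)).T := by
  have h1 := (step n).T_ge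
  have h2 := (inv n).T0
  have h3 : (0 : ℝ) ≤ 2 ^ n := by positivity
  linarith

theorem T_pow (n : ℕ) : (2 : ℝ) ^ n ≤ (stg (n + 1)).T := by
  have h1 := (step n).T_ge
  have h2 := (inv n).T0
  have h3 : (0 : ℝ) ≤ (n + 1) * ((stg n).S + 1) := by
    have := (inv n).S0
    positivity
  linarith

theorem close_le {m n : ℕ} (hmn : m ≤ n) {z : ℂ} (hz : ‖z‖ ≤ (stg m).r) :
    ‖(stg (n + 1)).Q.eval z - (stg n).Q.eval z‖ ≤ (1 / 2) ^ (n + 1) :=
  (step n).close z (hz.trans (r_strictMono.monotone hmn))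

/-- The limit of the polynomials. -/
noncomputable def L (z : ℂ) : ℂ := ∑' n : ℕ, ((stg (n + 1)).Q.eval z - (stg n).Q.eval z)

theorem sum_tele (n : ℕ) (z : ℂ) :
    ∑ i ∈ Finset.range n, ((stg (i + 1)).Q.eval z - (stg i).Q.eval z) = (stg n).Q.eval z := by
  rw [Finset.sum_range_sub (fun i => (stg i).Q.eval z)]
  have : (stg 0).Q = 0 := rfl
  rw [this]
  simp

theorem summable_L {m : ℕ} {z : ℂ} (hz : ‖z‖ ≤ (stg m).r) :
    Summable fun n : ℕ => ((stg (n + 1)).Q.eval z - (stg n).Q.eval z) := by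
  rw [← summable_nat_add_iff m]
  refine Summable.of_norm_bounded (g := fun n : ℕ => ((1 : ℝ) / 2) ^ n)
    (summable_geometric_of_lt_one (by norm_num) (by norm_num)) fun n => ?_
  refine (close_le (Nat.le_add_left m n) hz).trans ?_
  apply pow_le_pow_of_le_one (by norm_num) (by norm_num)
  omega

theorem L_close {m n : ℕ} (hmn : m ≤ n) {z : ℂ} (hz : ‖z‖ ≤ (stg m).r) :
    ‖L z - (stg n).Q.eval z‖ ≤ (1 / 2) ^ n := by
  have h1 := (summable_L hz).sum_add_tsum_nat_add n
  rw [sum_tele] at h1
  have h2 : L z - (stg n).Q.eval z =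
      ∑' i : ℕ, ((stg (i + n + 1)).Q.eval z - (stg (i + n)).Q.eval z) := by
    unfold L
    rw [← h1]
    ring
  rw [h2]
  have hg : HasSum (fun i : ℕ => ((1 : ℝ) / 2) ^ (n + 1) * (1 / 2) ^ i)
      ((1 / 2) ^ (n + 1) * 2) := by
    apply HasSum.mul_left
    have := hasSum_geometric_of_lt_one (r := (1 : ℝ) / 2) (by norm_num) (by norm_num)
    norm_num at this ⊢
    exact this
  have h3 := tsum_of_norm_bounded hg (f := fun i : ℕ =>
    ((stg (i + n + 1)).Q.eval z - (stg (i + n)).Q.eval z)) (fun i => by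
      refine (close_le (hmn.trans (Nat.le_add_left n i)) hz).trans (le_of_eq ?_)
      rw [← pow_add]
      congr 1
      omega)
  refine h3.trans (le_of_eq ?_)
  rw [pow_succ]
  ring

theorem L_diff : DifferentiableOn ℂ L (ball 0 1) := by
  intro z hz
  have hz1 : ‖z‖ < 1 := by simpa using hz
  obtain ⟨m, hm⟩ := exists_r_gt hz1
  have h1 : DifferentiableOn ℂ L (ball 0 (stg m).r) := by
    unfold L
    refine Complex.differentiableOn_tsum_of_summable_norm (u := fun n : ℕ =>
      if n < m then (stg (n + 1)).S + (stg n).S else (1 / 2) ^ n) ?_ ?_ isOpen_ball ?_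
    · rw [← summable_nat_add_iff m]
      have : (fun n : ℕ => if n + m < m then (stg (n + m + 1)).S + (stg (n + m)).S
          else ((1 : ℝ) / 2) ^ (n + m)) = fun n : ℕ => ((1 : ℝ) / 2) ^ m * (1 / 2) ^ n := by
        funext n
        rw [if_neg (by omega), ← pow_add, add_comm]
      rw [this]
      exact (summable_geometric_of_lt_one (by norm_num) (by norm_num)).mul_left _
    · intro n
      exact ((Polynomial.differentiable _).sub (Polynomial.differentiable _)).differentiableOn
    · intro n w hw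
      have hw' : ‖w‖ ≤ (stg m).r := by
        have : ‖w‖ < (stg m).r := by simpa using hw
        exact this.le
      by_cases hn : n < m
      · simp only [hn, if_true]
        have hw1 : ‖w‖ ≤ 1 := hw'.trans (r_lt_one m).le
        exact (norm_sub_le _ _).trans (add_le_add ((inv (n + 1)).bd w hw1) ((inv n).bd w hw1))
      · simp only [hn, if_false]
        refine (close_le (not_lt.1 hn) hw').trans ?_
        exact pow_le_pow_of_le_one (by norm_num) (by norm_num) (Nat.le_succ n)
  exact (h1.differentiableAt (isOpen_ball.mem_nhds (by simpa using hm))).differentiableWithinAt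

/-- The function of the counterexample. -/
noncomputable def f (z : ℂ) : ℂ := Complex.exp (L z)

theorem f_diff : DifferentiableOn ℂ f (ball 0 1) := L_diff.cexp

theorem f_le {m : ℕ} {z : ℂ} (hz : ‖z‖ ≤ (stg m).r) : ‖f z‖ ≤ Real.exp ((stg m).T + 1) := by
  unfold f
  rw [Complex.norm_exp]
  apply Real.exp_le_exp.2
  have h1 := L_close (le_refl m) hz
  have h2 := (inv m).re_le z (hz.trans (r_lt_one m).le)
  have h3 : (L z - (stg m).Q.eval z).re ≤ 1 := by
    refine (Complex.re_le_norm _).trans (h1.trans ?_)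
    exact pow_le_one₀ (by norm_num) (by norm_num)
  rw [Complex.sub_re] at h3
  linarith

end Pool.Agent.K6.H31.WI
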