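import Pool.Agent.K6.H31.WI.Fejer

/-! The inductive step of the construction. -/

set_option autoImplicit false

open Complex Metric Set Filter Topology

namespace Pool.Agent.K6.H31.WI

/-- The data of one stage. -/
structure St where
  (Q : Polynomial ℂ)
  (T : ℝ)
  (r : ℝ)
  (S : ℝ)
  (k : ℕ)

/-- The invariants of the stages. -/
structure Inv (s : St) : Prop where
  r0 : 0 < s.r
  r1 : s.r < 1
  T0 : 0 ≤ s.T
  S0 : 0 ≤ s.S
  bd : ∀ z : ℂ, ‖z‖ ≤ 1 → ‖s.Q.eval z‖ ≤ s.S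
  re_le : ∀ z : ℂ, ‖z‖ ≤ 1 → (s.Q.eval z).re ≤ s.T
  zero : s.Q.eval 0 = 0

/-- The relation between consecutive stages. -/
structure Step (m : ℕ) (s s' : St) : Prop where
  T_ge : (m + 1) * (s.S + 1) + s.T + 2 ^ m ≤ s'.T
  close : ∀ z : ℂ, ‖z‖ ≤ s.r → ‖s'.Q.eval z - s.Q.eval z‖ ≤ (1 / 2) ^ (m + 1)
  large : ∀ z : ℂ, ‖z‖ = 1 → (z ^ s'.k).re ≤ 1 / 2 → s'.T - (s'.Q.eval z).re ≤ 1 / 16
  r_ge : (1 + s.r) / 2 ≤ s'.r
  freq : (s.r / s'.r) ^ s'.k ≤ 1 / 10
  radial : ∀ z : ℂ, ‖z‖ = 1 → ‖s'.Q.eval ((s'.r : ℂ) * z) - s'.Q.eval z‖ ≤ 1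
  kpos : 0 < s'.k

theorem re_le_of_circle {Q : Polynomial ℂ} {T : ℝ}
    (h : ∀ z : ℂ, ‖z‖ = 1 → (Q.eval z).re ≤ T) (z : ℂ) (hz : ‖z‖ ≤ 1) : (Q.eval z).re ≤ T := by
  have h1 : ‖Complex.exp (Q.eval z)‖ ≤ Real.exp T := by
    refine Complex.norm_le_of_forall_mem_frontier_norm_le (f := fun z => Complex.exp (Q.eval z))
      (U := ball 0 1) isBounded_ball ?_ ?_ ?_
    · apply Differentiable.diffContOnCl
      exact (Polynomial.differentiable Q).cexp
    · intro w hw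
      rw [frontier_ball (0 : ℂ) one_ne_zero, mem_sphere_zero_iff_norm] at hw
      rw [Complex.norm_exp]
      exact Real.exp_le_exp.2 (h w hw)
    · rw [closure_ball (0 : ℂ) one_ne_zero]
      simpa using hz
  rw [Complex.norm_exp] at h1
  exact Real.exp_le_exp.1 h1

theorem exists_step (m : ℕ) (s : St) (hs : Inv s) : ∃ s' : St, Inv s' ∧ Step m s s' := by
  obtain ⟨Q, T, r, S, k⟩ := s
  obtain ⟨hr0, hr1, hT0, hS0, hbd, hre, hQ0⟩ := hs
  simp only at hr0 hr1 hT0 hS0 hbd hre hQ0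
  set T' : ℝ := (m + 1) * (S + 1) + T + 2 ^ m with hT'
  have hTT' : T ≤ T' := by
    rw [hT']
    have : (0 : ℝ) ≤ (m + 1) * (S + 1) := by positivity
    have : (0 : ℝ) ≤ 2 ^ m := by positivity
    linarith
  obtain ⟨N, hN⟩ := exists_nat_ge (64 * (T' + S))
  set d := Q.natDegree with hd
  obtain ⟨M, hM⟩ := (isCompact_closedBall (0 : ℂ) 1).exists_bound_of_continuousOn
    (f := fun z => (Dp Q d T').eval z) (Polynomial.continuous _).continuousOn
  have hM' : ∀ z : ℂ, ‖z‖ ≤ 1 → ‖(Dp Q d T').eval z‖ ≤ M := fun z hz => hM z (by simpa using hz)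
  set ρ : ℝ := 2 * r / (1 + r) with hρ
  have hρ0 : 0 ≤ ρ := by positivity
  have hρ1 : ρ < 1 := by
    rw [hρ, div_lt_one (by linarith)]
    linarith
  -- choice of the frequency
  have e1 : ∀ᶠ k' : ℕ in atTop, d + 1 ≤ k' := eventually_ge_atTop _
  have e2 : ∀ᶠ k' : ℕ in atTop, ρ ^ k' < 1 / 10 :=
    (tendsto_pow_atTop_nhds_zero_of_lt_one hρ0 hρ1).eventually (gt_mem_nhds (by norm_num))
  have e3 : ∀ᶠ k' : ℕ in atTop, 2 * N * M * r ^ (k' - d) < (1 / 2) ^ (m + 1) := by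
    have h1 : Tendsto (fun k' : ℕ => 2 * N * M * r ^ (k' - d)) atTop (𝓝 (2 * N * M * 0)) := by
      apply Tendsto.const_mul
      exact (tendsto_pow_atTop_nhds_zero_of_lt_one hr0.le hr1).comp (tendsto_sub_atTop_nat d)
    rw [mul_zero] at h1
    exact h1.eventually (gt_mem_nhds (by positivity))
  obtain ⟨k', hk1, hk2, hk3⟩ := (e1.and (e2.and e3)).exists
  set H := Hp Q d T' N k' with hH
  set Q' := Q + H with hQ'
  have hev : ∀ z : ℂ, Q'.eval z = Q.eval z + H.eval z := fun z => by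
    rw [hQ', Polynomial.eval_add]
  have hzk : ∀ z : ℂ, ‖z‖ = 1 → ‖z ^ k'‖ = 1 := fun z hz => by rw [norm_pow, hz, one_pow]
  have hreQ' : ∀ z : ℂ, ‖z‖ = 1 →
      T' - (Q'.eval z).re = (T' - (Q.eval z).re) * (F N (z ^ k') / (N + 1)) := by
    intro z hz
    rw [hev, Complex.add_re, hH, Hp_re (le_refl d) T' N k' (by omega) hz]
    ring
  have hQ're : ∀ z : ℂ, ‖z‖ ≤ 1 → (Q'.eval z).re ≤ T' := by
    apply re_le_of_circle
    intro z hz
    have h1 := hreQ' z hz
    have h2 : 0 ≤ (T' - (Q.eval z).re) * (F N (z ^ k') / (N + 1)) := by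
      apply mul_nonneg
      · have := hre z hz.le
        linarith
      · exact div_nonneg (F_nonneg N (hzk z hz)) (by positivity)
    linarith
  obtain ⟨S', hS'⟩ := (isCompact_closedBall (0 : ℂ) 1).exists_bound_of_continuousOn
    (f := fun z => Q'.eval z) (Polynomial.continuous _).continuousOn
  have hS'0 : 0 ≤ S' := (norm_nonneg _).trans (hS' 0 (by simp))
  -- choice of the radius
  have huc : UniformContinuousOn (fun z => Q'.eval z) (closedBall (0 : ℂ) 1) :=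
    (isCompact_closedBall (0 : ℂ) 1).uniformContinuousOn_of_continuous
      (Polynomial.continuous _).continuousOn
  rw [Metric.uniformContinuousOn_iff] at huc
  obtain ⟨δ, hδ, hδ'⟩ := huc 1 one_pos
  set r' : ℝ := max ((1 + r) / 2) (1 - δ / 2) with hr'
  have hr'1 : r' < 1 := by
    rw [hr', max_lt_iff]
    constructor <;> linarith
  have hr'ge : (1 + r) / 2 ≤ r' := le_max_left _ _
  have hr'0 : 0 < r' := lt_of_lt_of_le (by linarith) hr'ge
  refine ⟨⟨Q', T', r', S', k'⟩, ⟨hr'0, hr'1, ?_, hS'0, fun z hz => hS' z (by simpa using hz),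
    hQ're, ?_⟩, ⟨?_, ?_, ?_, hr'ge, ?_, ?_, ?_⟩⟩
  · exact hT0.trans hTT'
  · show Q'.eval 0 = 0
    rw [hev, hQ0, hH, Hp_zero T' N k' (by omega), add_zero]
  · exact le_refl _
  · intro z hz
    show ‖Q'.eval z - Q.eval z‖ ≤ _
    rw [hev, add_sub_cancel_left]
    exact (Hp_small T' N k' (by omega) hr1.le hM' hz).trans hk3.le
  · intro z hz hzre
    show T' - (Q'.eval z).re ≤ 1 / 16
    simp only at hzre
    rw [hreQ' z hz]
    have h1 : F N (z ^ k') ≤ 4 := F_le N (hzk z hz) hzre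
    have h2 : T' - (Q.eval z).re ≤ T' + S := by
      have h3 := hbd z hz.le
      have h4 := Complex.abs_re_le_norm (Q.eval z)
      have h5 := neg_abs_le (Q.eval z).re
      linarith
    have h3 : 0 ≤ F N (z ^ k') := F_nonneg N (hzk z hz)
    have h6 : 0 ≤ T' - (Q.eval z).re := by
      have := hre z hz.le
      linarith
    have hN1 : (0 : ℝ) < N + 1 := by positivity
    rw [← mul_div_assoc, div_le_iff₀ hN1]
    calc (T' - (Q.eval z).re) * F N (z ^ k') ≤ (T' + S) * 4 := by gcongr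
      _ ≤ 1 / 16 * (N + 1) := by linarith
  · show (r / r') ^ k' ≤ 1 / 10
    refine le_trans ?_ hk2.le
    apply pow_le_pow_left₀ (by positivity)
    rw [hρ, div_le_div_iff₀ hr'0 (by linarith)]
    nlinarith
  · intro z hz
    show ‖Q'.eval ((r' : ℂ) * z) - Q'.eval z‖ ≤ 1
    have h1 : ‖(r' : ℂ) * z‖ ≤ 1 := by
      rw [norm_mul, hz, mul_one, Complex.norm_real, Real.norm_of_nonneg hr'0.le]
      exact hr'1.le
    have h2 : dist ((r' : ℂ) * z) z < δ := by
      rw [dist_eq_norm]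
      have h3 : (r' : ℂ) * z - z = ((r' - 1 : ℝ) : ℂ) * z := by
        push_cast
        ring
      rw [h3, norm_mul, hz, mul_one, Complex.norm_real, Real.norm_eq_abs, abs_of_neg (by linarith)]
      have h4 : 1 - δ / 2 ≤ r' := le_max_right _ _
      linarith
    have h3 := hδ' _ (by simpa using h1) z (by simpa using hz.le) h2
    rw [dist_eq_norm] at h3
    exact h3.le
  · show 0 < k'
    omega

/-- The initial stage. -/
noncomputable def s0 : St := ⟨0, 0, 1 / 2, 0, 1⟩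

theorem inv_s0 : Inv s0 := by
  refine ⟨?_, ?_, ?_, ?_, ?_, ?_, ?_⟩ <;> simp [s0]
  norm_num

/-- The sequence of stages. -/
noncomputable def seqAux : (n : ℕ) → {s : St // Inv s}
  | 0 => ⟨s0, inv_s0⟩
  | n + 1 => ⟨(exists_step n (seqAux n).1 (seqAux n).2).choose,
      (exists_step n (seqAux n).1 (seqAux n).2).choose_spec.1⟩

noncomputable def stg (n : ℕ) : St := (seqAux n).1

theorem inv (n : ℕ) : Inv (stg n) := (seqAux n).2

theorem step (n : ℕ) : Step n (stg n) (stg (n + 1)) :=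
  (exists_step n (seqAux n).1 (seqAux n).2).choose_spec.2

end Pool.Agent.K6.H31.WI
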